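import Pool.Agent.H3.PK.Fin
import Pool.Agent.H13.PK.WUS
import Pool.Agent.H17.PK.MV
import Pool.Agent.H17.PK.CHN
import Pool.Agent.H17.PK.RU
import Pool.Agent.H24.PK.GSM
import Pool.Agent.H24.PK.SGN
import Pool.Agent.H3.PK.XRT
import Pool.Agent.H61.PK.HK1
import Pool.Agent.H61.PK.HK2
import Pool.Agent.H61.PK.IT
import Pool.Agent.H61.PK.ORT
import Pool.Agent.H65.PK.SIG
import Pool.Agent.H81.PK.RW
import Pool.Agent.H81.PK.WL
import Pool.Agent.H86.PK.BB
import Pool.Agent.H87.PK.MOM
import Pool.Agent.H87.PK.ST
import Pool.Agent.H89.PK.WU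
import Pool.Agent.H90.PK.WS

/-!
# A compact null set on which no function orthogonal to the RP-measures is equal to one

`XX n` is the closure in `C(S)`, `S` the unit sphere of `ℂ^n`, of the linear span of the spaces
`H(a, b)` with `a, b ≥ 1`. For every `n ≥ 2` there is a compact set `K ⊆ S` of surface measure zero
such that no `f ∈ XX n` is identically `1` on `K`. In particular no `f ∈ XX n` peaks on `K`.

The proof constructs polynomials `F` with constant coefficient `1` such that the real measures
`Re F dσ`, which annihilate `XX n`, have total mass `1` and bounded variation, while their variation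
off a small neighbourhood of `K` tends to zero.

* `T_RW`: polynomials `p` of degree `N`, bounded by `1` on `S`, with `∫ g |p|² ≥ c ∫ g` for a given
  `g ≥ 0` (random signs).
* `T_HK2`: on the sphere `Re F · p` is close to a holomorphic polynomial with constant term `0`
  when `N` is large.
* `T_ST`, `T_IT`: replacing `h` by a function close to `h (1 + Re p)` decreases `∫ √|h|` by a
  factor; after many steps `h` lives on a set of small measure.
* `T_RU`, `T_CHN`: polynomials with the value `1` at `0`, small outside of a channel around the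
  segment `[0, 1]` in one coordinate.
* `T_CON`: the compact set. `T_MOM`, `T_ORT`: the orthogonality.
-/

set_option autoImplicit false

namespace Pool.Agent.Results.MP_7886dd_an.NoInterpolation

open Pool.Agent.H3.PK

/-- For every `n ≥ 2` there is a compact set `K` in the unit sphere of `ℂ^n`, of surface measure
zero, such that no function in the closed span of the `H(a, b)`, `a, b ≥ 1`, is equal to `1` on
`K`. -/
theorem result : ∀ n : ℕ, 2 ≤ n → ∃ K : Set (S n), IsCompact K ∧ sig n K = 0 ∧
    ∀ f ∈ XX n, ¬ ∀ z ∈ K, f z = 1 := by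
  have hRW : T_RW := Pool.Agent.H81.PK.rw_poly
    (Pool.Agent.H13.PK.WUS.wus Pool.Agent.H89.PK.wu Pool.Agent.H24.PK.gsm)
    Pool.Agent.H81.PK.wl Pool.Agent.H86.PK.bb_spec Pool.Agent.H24.PK.sgn
  have hIT : T_IT := it (Pool.Agent.H87.PK.st (hk2 hk1) hRW Pool.Agent.H90.PK.ws)
  have hCON : T_CON := con hIT Pool.Agent.H17.PK.ru Pool.Agent.H17.PK.chn
  have hORT : T_ORT := ort Pool.Agent.H87.PK.mom
  have hXRT : T_XRT := xrt hORT (orc hORT)
  intro n hn
  exact fin Pool.Agent.H65.PK.sig_inv Pool.Agent.H65.PK.nul hCON Pool.Agent.H17.PK.mv hXRT n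
    (by omega)

end Pool.Agent.Results.MP_7886dd_an.NoInterpolation
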